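import Pool.Agent.H86.IR.Targets2

/-!
# No large gap at the ends (C2B)
-/

set_option autoImplicit false

open Topology Filter

namespace Pool.Agent.H86.IR

namespace H13C2B

theorem wt_form (N k : ℕ) (hN : 1 ≤ N) :
    wt N k = (-1) ^ k - (if k = 0 then 1 / 2 else 0) - (if k = N then (-1) ^ N / 2 else 0) := by
  unfold wt
  by_cases h0 : k = 0
  · subst h0
    rw [if_pos rfl, if_pos rfl, if_neg (by omega)]
    norm_num
  · rw [if_neg h0, if_neg h0]
    by_cases h1 : k = N
    · subst h1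
      rw [if_pos rfl, if_pos rfl]
      ring
    · rw [if_neg h1, if_neg h1]
      ring

theorem wt_sq (N k : ℕ) (hN : 1 ≤ N) :
    wt N k ^ 2 = 1 - (if k = 0 then 3 / 4 else 0) - (if k = N then 3 / 4 else 0) := by
  have h2 : ∀ m : ℕ, ((-1 : ℝ) ^ m) ^ 2 = 1 := by
    intro m
    rw [← pow_mul, mul_comm, pow_mul]
    norm_num
  unfold wt
  by_cases h0 : k = 0
  · subst h0
    rw [if_pos rfl, if_pos rfl, if_neg (by omega)]
    norm_num
  · rw [if_neg h0, if_neg h0]
    by_cases h1 : k = N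
    · subst h1
      rw [if_pos rfl, if_pos rfl, div_pow, h2]
      norm_num
    · rw [if_neg h1, if_neg h1, h2]
      ring

theorem sum_alt (N : ℕ) : ∑ k ∈ Finset.range (N + 1), (-1 : ℝ) ^ k = (1 + (-1) ^ N) / 2 := by
  induction N with
  | zero => norm_num
  | succ N ih =>
    rw [Finset.sum_range_succ, ih, pow_succ]
    ring

theorem wt_sum (N : ℕ) (hN : 1 ≤ N) : ∑ k ∈ Finset.range (N + 1), wt N k = 0 := by
  rw [Finset.sum_congr rfl (fun k _ => wt_form N k hN), Finset.sum_sub_distrib,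
    Finset.sum_sub_distrib, sum_alt, Finset.sum_ite_eq' (Finset.range (N + 1)) 0,
    Finset.sum_ite_eq' (Finset.range (N + 1)) N, if_pos (by simp), if_pos (by simp)]
  ring

theorem wt_sq_sum (N : ℕ) (hN : 1 ≤ N) (γ : ℕ → ℝ) :
    ∑ k ∈ Finset.range (N + 1), wt N k ^ 2 * γ k =
      ∑ k ∈ Finset.range (N + 1), γ k - 3 / 4 * (γ 0 + γ N) := by
  have h : ∀ k ∈ Finset.range (N + 1), wt N k ^ 2 * γ k =
      γ k - (if k = 0 then 3 / 4 * γ 0 else 0) - (if k = N then 3 / 4 * γ N else 0) := by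
    intro k _
    rw [wt_sq N k hN]
    split_ifs with h0 h1 h2
    · omega
    · subst h0; ring
    · subst h2; ring
    · ring
  rw [Finset.sum_congr rfl h, Finset.sum_sub_distrib, Finset.sum_sub_distrib,
    Finset.sum_ite_eq' (Finset.range (N + 1)) 0,
    Finset.sum_ite_eq' (Finset.range (N + 1)) N, if_pos (by simp), if_pos (by simp)]
  ring

/-- the numerical inequality -/
theorem num : 5 / 2 + 5 / 2 * Real.log (3 * Real.pi / 4) + 15 / 2 * Real.log 2 + kap ≤
    Real.log (10 ^ 5) := by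
  have hpi := Real.pi_pos
  have h6 : (0 : ℝ) < Real.sqrt 6 := Real.sqrt_pos.2 (by norm_num)
  have e1 : (10 : ℝ) + 10 * Real.log (3 * Real.pi / 4) + 30 * Real.log 2 + 4 * kap =
      Real.log (Real.exp 10 * (3 * Real.pi / 4) ^ 10 * 2 ^ 30 * (16 * Real.sqrt 6 / 9) ^ 4) := by
    rw [Real.log_mul (by positivity) (by positivity), Real.log_mul (by positivity) (by positivity),
      Real.log_mul (by positivity) (by positivity), Real.log_exp, Real.log_pow, Real.log_pow,
      Real.log_pow]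
    unfold kap
    norm_num
  have e2 : (16 * Real.sqrt 6 / 9) ^ 4 = 16 ^ 4 * 36 / 9 ^ 4 := by
    have : Real.sqrt 6 ^ 4 = 36 := by
      have h := Real.sq_sqrt (show (0 : ℝ) ≤ 6 by norm_num)
      calc Real.sqrt 6 ^ 4 = (Real.sqrt 6 ^ 2) ^ 2 := by ring
        _ = 36 := by rw [h]; norm_num
    rw [div_pow, mul_pow, this]
  have e3 : Real.exp 10 ≤ 2.7182818286 ^ 10 := by
    have : Real.exp 10 = Real.exp 1 ^ 10 := by
      rw [← Real.exp_nat_mul]; norm_num
    rw [this]
    exact pow_le_pow_left₀ (Real.exp_pos 1).le Real.exp_one_lt_d9.le 10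
  have e4 : (3 * Real.pi / 4) ^ 10 ≤ (3 * 3.15 / 4) ^ 10 := by
    apply pow_le_pow_left₀ (by positivity)
    have := Real.pi_lt_d2
    linarith
  have e5 : Real.exp 10 * (3 * Real.pi / 4) ^ 10 * 2 ^ 30 * (16 * Real.sqrt 6 / 9) ^ 4 ≤
      (10 : ℝ) ^ 20 := by
    rw [e2]
    calc Real.exp 10 * (3 * Real.pi / 4) ^ 10 * 2 ^ 30 * (16 ^ 4 * 36 / 9 ^ 4)
        ≤ 2.7182818286 ^ 10 * (3 * 3.15 / 4) ^ 10 * 2 ^ 30 * (16 ^ 4 * 36 / 9 ^ 4) := by
          gcongr
      _ ≤ (10 : ℝ) ^ 20 := by norm_num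
  have e6 := Real.log_le_log (by positivity) e5
  rw [← e1] at e6
  have e7 : Real.log ((10 : ℝ) ^ 20) = 4 * Real.log (10 ^ 5) := by
    rw [Real.log_pow, Real.log_pow]; push_cast; ring
  rw [e7] at e6
  linarith

end H13C2B

open H13C2B

theorem c2b (hEIB : T_EIB) (hKX : T_KX) : T_C2B := by
  intro n hn x γ hEI hL hγ hg1 hg2
  obtain ⟨h2, -, -, -⟩ := hEIB n x γ hEI
  obtain ⟨hmono, hen⟩ := hEI
  obtain ⟨N, rfl⟩ : ∃ N, n = N + 1 := ⟨n - 1, by omega⟩
  have hN : 2 ≤ N := by omega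
  have hNr : (2 : ℝ) ≤ N := by exact_mod_cast hN
  simp only [Nat.add_sub_cancel] at hL hg1 hg2 ⊢
  have hN2 : N + 1 - 2 = N - 1 := by omega
  rw [hN2] at hg2
  push_cast at hg1 hg2 hγ ⊢
  have hen' := hen (wt N) (wt_sum N (by omega))
  rw [wt_sq_sum N (by omega)] at hen'
  have hkx := hKX N x (by omega) (fun i j hij hj => hmono i j hij (by omega))
  have hx01 : x 0 < x 1 := hmono 0 1 (by omega) (by omega)
  have hxN : x (N - 1) < x N := hmono _ _ (by omega) (by omega)
  have hx0N : x 0 < x N := hmono 0 N (by omega) (by omega)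
  have hpi := Real.pi_pos
  set L := x N - x 0 with hLdef
  have hLpos : 0 < L := by rw [hLdef]; linarith
  set g1 := (N : ℝ) * (x 1 - x 0) / L with hg1d
  set g2 := (N : ℝ) * (x N - x (N - 1)) / L with hg2d
  have hg1p : 0 < g1 := by
    rw [hg1d]
    apply div_pos (mul_pos (by linarith) (by linarith)) hLpos
  have hg2p : 0 < g2 := by
    rw [hg2d]
    apply div_pos (mul_pos (by linarith) (by linarith)) hLpos
  have hg18 : g1 ≤ 8 := by
    rw [hg1d, div_le_iff₀ hLpos]
    linarith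
  have hg28 : g2 ≤ 8 := by
    rw [hg2d, div_le_iff₀ hLpos]
    linarith
  have a1 : Real.log (g1 * g2) = Real.log g1 + Real.log g2 :=
    Real.log_mul hg1p.ne' hg2p.ne'
  rw [a1] at hkx
  have hLN : Real.log (L / N) ≤ Real.log 2 - Real.log N := by
    rw [Real.log_div hLpos.ne' (by linarith)]
    have := Real.log_le_log hLpos hL
    linarith
  have b1 : Real.log (x 1 - x 0) = Real.log g1 + Real.log (L / N) := by
    rw [← Real.log_mul hg1p.ne' (by positivity)]
    congr 1
    rw [hg1d]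
    field_simp
  have b2 : Real.log (x N - x (N - 1)) = Real.log g2 + Real.log (L / N) := by
    rw [← Real.log_mul hg2p.ne' (by positivity)]
    congr 1
    rw [hg2d]
    field_simp
  have c1 := h2 0 1 (by omega) (by omega)
  have c2 := h2 (N - 1) N (by omega) (by omega)
  have d1 := hγ 1 (by omega)
  have d2 := hγ (N - 1) (by omega)
  have hA : Real.log (4 / (Real.pi * (N + 1))) = 2 * Real.log 2 - Real.log Real.pi -
      Real.log (N + 1) := by
    rw [Real.log_div (by norm_num) (by positivity), Real.log_mul (by positivity) (by positivity),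
      show (4 : ℝ) = 2 ^ 2 by norm_num, Real.log_pow]
    push_cast
    ring
  have h2p : Real.log (2 / Real.pi) = Real.log 2 - Real.log Real.pi :=
    Real.log_div (by norm_num) hpi.ne'
  have hlg1 : Real.log g1 ≤ 3 * Real.log 2 := by
    have h := Real.log_le_log hg1p hg18
    have h8 : Real.log 8 = 3 * Real.log 2 := by
      rw [show (8 : ℝ) = 2 ^ 3 by norm_num, Real.log_pow]; norm_num
    linarith
  have hlg2 : Real.log g2 ≤ 3 * Real.log 2 := by
    have h := Real.log_le_log hg2p hg28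
    have h8 : Real.log 8 = 3 * Real.log 2 := by
      rw [show (8 : ℝ) = 2 ^ 3 by norm_num, Real.log_pow]; norm_num
    linarith
  have hd : Real.log ((N + 1 : ℝ) / N) = Real.log (N + 1) - Real.log N :=
    Real.log_div (by linarith) (by linarith)
  have hd1 : (N : ℝ) * (Real.log (N + 1) - Real.log N) ≤ 1 := by
    rw [← hd]
    have hpos : (0 : ℝ) < N := by linarith
    have := Real.log_le_sub_one_of_pos (show (0 : ℝ) < (N + 1) / N by positivity)
    calc (N : ℝ) * Real.log ((N + 1) / N) ≤ N * ((N + 1) / N - 1) :=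
          mul_le_mul_of_nonneg_left this hpos.le
      _ = 1 := by field_simp; ring
  have hd2 : Real.log (N + 1) - Real.log N ≤ Real.log 3 - Real.log 2 := by
    rw [← hd, ← Real.log_div (by norm_num) (by norm_num)]
    apply Real.log_le_log (by positivity)
    rw [div_le_div_iff₀ (by linarith) (by norm_num)]
    linarith
  have h3p : Real.log (3 * Real.pi / 4) = Real.log 3 + Real.log Real.pi - 2 * Real.log 2 := by
    rw [Real.log_div (by positivity) (by norm_num), Real.log_mul (by norm_num) hpi.ne',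
      show (4 : ℝ) = 2 ^ 2 by norm_num, Real.log_pow]
    push_cast
    ring
  have hnum := num
  rw [h3p] at hnum
  -- the product with `log (L / N)`
  have hprod : ((N : ℝ) - 1 / 2) * Real.log (L / N) ≤
      (N - 1 / 2) * (Real.log 2 - Real.log N) :=
    mul_le_mul_of_nonneg_left hLN (by linarith)
  rw [hA] at d1 d2 ⊢
  rw [h2p] at hkx
  rw [b1] at c1
  rw [b2] at c2
  have key : ∑ k ∈ Finset.range (N + 1), γ k ≤
      3 / 4 * (γ 0 + γ N) + (N * (Real.log 2 - Real.log Real.pi) +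
        (N - 1 / 2) * (Real.log 2 - Real.log N) - (Real.log g1 + Real.log g2) / 4 + kap) := by
    linarith
  have g0 : γ 0 ≤ 2 * Real.log g1 + 2 * (Real.log 2 - Real.log N) + 1 -
      (2 * Real.log 2 - Real.log Real.pi - Real.log (N + 1)) := by linarith
  have gN : γ N ≤ 2 * Real.log g2 + 2 * (Real.log 2 - Real.log N) + 1 -
      (2 * Real.log 2 - Real.log Real.pi - Real.log (N + 1)) := by linarith
  generalize Real.log (N + 1 : ℝ) = ln at *
  generalize Real.log (N : ℝ) = lN at *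
  generalize Real.log g1 = G1 at *
  generalize Real.log g2 = G2 at *
  generalize Real.log 2 = l2 at *
  generalize Real.log Real.pi = lp at *
  generalize Real.log 3 = l3 at *
  have k1 : 3 / 4 * (γ 0 + γ N) ≤ 3 / 4 * (2 * G1 + 2 * (l2 - lN) + 1 - (2 * l2 - lp - ln) +
      (2 * G2 + 2 * (l2 - lN) + 1 - (2 * l2 - lp - ln))) := by linarith
  have k2 : Real.log (10 ^ 5) + (N + 1) * (2 * l2 - lp - ln) -
      (3 / 4 * (2 * G1 + 2 * (l2 - lN) + 1 - (2 * l2 - lp - ln) +
      (2 * G2 + 2 * (l2 - lN) + 1 - (2 * l2 - lp - ln))) + (N * (l2 - lp) +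
        (N - 1 / 2) * (l2 - lN) - (G1 + G2) / 4 + kap)) =
      (1 - N * (ln - lN)) + 5 / 2 * (l3 - l2 - (ln - lN)) + 5 / 4 * (3 * l2 - G1) +
      5 / 4 * (3 * l2 - G2) + (Real.log (10 ^ 5) -
        (5 / 2 + 5 / 2 * (l3 + lp - 2 * l2) + 15 / 2 * l2 + kap)) := by ring
  have k3 : 0 ≤ 1 - (N : ℝ) * (ln - lN) := by linarith
  have k4 : 0 ≤ l3 - l2 - (ln - lN) := by linarith
  have k5 : 0 ≤ 3 * l2 - G1 := by linarith
  have k6 : 0 ≤ 3 * l2 - G2 := by linarith
  have k7 : 0 ≤ Real.log (10 ^ 5) -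
        (5 / 2 + 5 / 2 * (l3 + lp - 2 * l2) + 15 / 2 * l2 + kap) := by linarith
  have k8 : 0 ≤ Real.log (10 ^ 5) + (N + 1) * (2 * l2 - lp - ln) -
      (3 / 4 * (2 * G1 + 2 * (l2 - lN) + 1 - (2 * l2 - lp - ln) +
      (2 * G2 + 2 * (l2 - lN) + 1 - (2 * l2 - lp - ln))) + (N * (l2 - lp) +
        (N - 1 / 2) * (l2 - lN) - (G1 + G2) / 4 + kap)) := by
    rw [k2]
    positivity
  have k9 : ∑ k ∈ Finset.range (N + 1), γ k ≤
    3 / 4 * (2 * G1 + 2 * (l2 - lN) + 1 - (2 * l2 - lp - ln) +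
      (2 * G2 + 2 * (l2 - lN) + 1 - (2 * l2 - lp - ln))) + (N * (l2 - lp) +
        (N - 1 / 2) * (l2 - lN) - (G1 + G2) / 4 + kap) := by
    refine key.trans ?_
    gcongr
  exact k9.trans (sub_nonneg.1 k8)

end Pool.Agent.H86.IR
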